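import Pool.Agent.V7H32.LN.Line

set_option autoImplicit false
set_option linter.unusedSectionVars false

open CategoryTheory MonoidalCategory BraidedCategory Limits

namespace Pool.Agent.V7H32.LN

universe w v u

section

variable {C : Type u} [Category.{v} C] [Preadditive C] [MonoidalCategory C]
  [MonoidalPreadditive C] [SymmetricCategory C]

/-- An object on whose square the symmetry is of the form `s ⊗ 1`. -/
lemma IsLineSum.of_scalar {T : C} (s : T ⟶ T) (h : (β_ T T).hom = s ⊗ₘ 𝟙 T) : IsLineSum T := by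
  refine ⟨PUnit, PUnit, inferInstance, inferInstance, fun _ => 𝟙 _, fun _ => 𝟙 _, fun _ => s,
    fun _ => 𝟙 _, by simp, ?_⟩
  simp [h]

lemma IsLineSum.unit : IsLineSum (𝟙_ C) := by
  refine IsLineSum.of_scalar (𝟙 _) ?_
  rw [braiding_tensorUnit_left, unitors_equal]
  simp

lemma IsLineSum.tensor {S T : C} (hS : IsLineSum S) (hT : IsLineSum T) :
    IsLineSum (S ⊗ T) := by
  obtain ⟨ι, κ, _, _, a, b, a', b', h1, h2⟩ := hS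
  obtain ⟨μ, ν, _, _, c, d, c', d', h3, h4⟩ := hT
  refine ⟨ι × μ, κ × ν, inferInstance, inferInstance, fun i => a i.1 ⊗ₘ c i.2,
    fun i => b i.1 ⊗ₘ d i.2, fun i => a' i.1 ⊗ₘ c' i.2, fun i => b' i.1 ⊗ₘ d' i.2, ?_, ?_⟩
  · simp only [tensorHom_comp_tensorHom]
    rw [Fintype.sum_prod_type]
    simp only [← tensor_sum, ← sum_tensor, h1, h3]
    simp
  · have key : ∀ {ι' μ' : Type} [Fintype ι'] [Fintype μ'] (a b : ι' → (S ⟶ S))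
        (c d : μ' → (T ⟶ T)), ∑ i : ι' × μ', ((a i.1 ⊗ₘ c i.2) ⊗ₘ (b i.1 ⊗ₘ d i.2)) =
        tensorδ S S T T ≫ ((∑ i, (a i ⊗ₘ b i)) ⊗ₘ (∑ j, (c j ⊗ₘ d j))) ≫
          tensorμ S S T T := by
      intro ι' μ' _ _ a b c d
      rw [Fintype.sum_prod_type]
      simp only [tensor_sum, sum_tensor]
      rw [Preadditive.sum_comp, Preadditive.comp_sum, Finset.sum_comm]
      refine Finset.sum_congr rfl fun j _ => ?_
      rw [Preadditive.sum_comp, Preadditive.comp_sum]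
      refine Finset.sum_congr rfl fun i _ => ?_
      rw [tensorμ_natural, ← Category.assoc, tensorδ_tensorμ, Category.id_comp]
    rw [key, key, ← h2, ← h4, ← tensorHom_comp_tensorHom]
    have h5 : tensorδ S S T T ≫ ((β_ S S).hom ⊗ₘ (β_ T T).hom) =
        (β_ (S ⊗ T) (S ⊗ T)).hom ≫ tensorδ S S T T := by
      have h6 := SymmetricCategory.tensorμ_braid_swap S T
      calc tensorδ S S T T ≫ ((β_ S S).hom ⊗ₘ (β_ T T).hom)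
          = tensorδ S S T T ≫ (((β_ S S).hom ⊗ₘ (β_ T T).hom) ≫ tensorμ S S T T) ≫
              tensorδ S S T T := by
            rw [Category.assoc, tensorμ_tensorδ, Category.comp_id]
        _ = _ := by
            rw [← h6, Category.assoc, ← Category.assoc (tensorδ S S T T), tensorδ_tensorμ,
              Category.id_comp]
    simp only [Category.assoc]
    rw [← Category.assoc (tensorδ S S T T) ((β_ S S).hom ⊗ₘ (β_ T T).hom), h5]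
    simp only [Category.assoc]

/-- The duality pairing of the squares. -/
def pair2 (T D : C) [ExactPairing T D] : (D ⊗ D) ⊗ (T ⊗ T) ⟶ 𝟙_ C :=
  tensorμ D D T T ≫ (ε_ T D ⊗ₘ ε_ T D) ≫ (λ_ (𝟙_ C)).hom

lemma pair2_swap (T D : C) [ExactPairing T D] :
    ((β_ D D).hom ⊗ₘ (β_ T T).hom) ≫ pair2 T D = pair2 T D := by
  rw [pair2, ← Category.assoc, ← SymmetricCategory.tensorμ_braid_swap, Category.assoc,
    ← braiding_naturality_assoc]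
  have : (β_ (𝟙_ C) (𝟙_ C)).hom ≫ (λ_ (𝟙_ C)).hom = (λ_ (𝟙_ C)).hom := by
    rw [braiding_leftUnitor, unitors_equal]
  rw [this]

lemma pair2_nat (T : C) [HasRightDual T] (a b : T ⟶ T) :
    (𝟙 (Tᘁ ⊗ Tᘁ) ⊗ₘ (a ⊗ₘ b)) ≫ pair2 T Tᘁ = ((aᘁ ⊗ₘ bᘁ) ⊗ₘ 𝟙 (T ⊗ T)) ≫ pair2 T Tᘁ := by
  have h : ∀ f : T ⟶ T, (𝟙 (Tᘁ) ⊗ₘ f) ≫ ε_ T Tᘁ = (fᘁ ⊗ₘ 𝟙 T) ≫ ε_ T Tᘁ := by
    intro f
    rw [id_tensorHom, tensorHom_id]
    exact (rightAdjointMate_comp_evaluation f).symm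
  rw [← id_tensorHom_id (Tᘁ) (Tᘁ), ← id_tensorHom_id T T, pair2]
  rw [← Category.assoc, tensorμ_natural, ← Category.assoc ((_ ⊗ₘ _) ⊗ₘ (𝟙 T ⊗ₘ 𝟙 T)),
    tensorμ_natural]
  simp only [Category.assoc]
  rw [← Category.assoc (_ ⊗ₘ _), tensorHom_comp_tensorHom, h a, h b,
    ← tensorHom_comp_tensorHom, Category.assoc]

lemma pair2_eval (T D : C) [ExactPairing T D] :
    (D ⊗ D) ◁ (β_ T T).hom ≫ pair2 T D = ε_ (T ⊗ T) (D ⊗ D) := by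
  rw [ExactPairing.tensor_evaluation, pair2, tensorμ]
  have h1 : D ◁ (β_ T T).hom ≫ (α_ D T T).inv ≫ (β_ D T).hom ▷ T ≫ (α_ T D T).hom =
      (α_ D T T).inv ≫ (β_ (D ⊗ T) T).hom := by
    rw [braiding_tensor_left_hom]
    simp
  have h2 : (D ⊗ D) ◁ (β_ T T).hom ≫ (α_ D D (T ⊗ T)).hom ≫ D ◁ (α_ D T T).inv ≫
      D ◁ (β_ D T).hom ▷ T ≫ D ◁ (α_ T D T).hom ≫ (α_ D T (D ⊗ T)).inv =
      (α_ D D (T ⊗ T)).hom ≫ D ◁ ((α_ D T T).inv ≫ (β_ (D ⊗ T) T).hom) ≫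
        (α_ D T (D ⊗ T)).inv := by
    rw [← h1]
    simp
  have h3 : (β_ (D ⊗ T) T).hom ≫ T ◁ ε_ T D = ε_ T D ▷ T ≫ (λ_ T).hom ≫ (ρ_ T).inv := by
    rw [← braiding_naturality_left, braiding_tensorUnit_left]
  have h4 : (α_ D T (D ⊗ T)).inv ≫ (ε_ T D ⊗ₘ ε_ T D) =
      D ◁ T ◁ ε_ T D ≫ (α_ D T (𝟙_ C)).inv ≫ ε_ T D ▷ 𝟙_ C := by
    rw [tensorHom_def', associator_inv_naturality_right_assoc]
  calc _ = ((D ⊗ D) ◁ (β_ T T).hom ≫ (α_ D D (T ⊗ T)).hom ≫ D ◁ (α_ D T T).inv ≫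
      D ◁ (β_ D T).hom ▷ T ≫ D ◁ (α_ T D T).hom ≫ (α_ D T (D ⊗ T)).inv) ≫
        (ε_ T D ⊗ₘ ε_ T D) ≫ (λ_ (𝟙_ C)).hom := by simp only [Category.assoc]
    _ = (α_ D D (T ⊗ T)).hom ≫ D ◁ (α_ D T T).inv ≫ D ◁ ((β_ (D ⊗ T) T).hom ≫ T ◁ ε_ T D) ≫
        (α_ D T (𝟙_ C)).inv ≫ ε_ T D ▷ 𝟙_ C ≫ (λ_ (𝟙_ C)).hom := by
      rw [h2]
      simp only [Category.assoc, whiskerLeft_comp]
      rw [← Category.assoc (α_ D T (D ⊗ T)).inv, h4]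
      simp only [Category.assoc]
    _ = _ := by
      rw [h3]
      monoidal

lemma pair2_inj (T D : C) [ExactPairing T D] (f g : D ⊗ D ⟶ D ⊗ D)
    (h : (f ⊗ₘ 𝟙 (T ⊗ T)) ≫ pair2 T D = (g ⊗ₘ 𝟙 (T ⊗ T)) ≫ pair2 T D) : f = g := by
  have key : ∀ f : D ⊗ D ⟶ D ⊗ D, f ▷ (T ⊗ T) ≫ ε_ (T ⊗ T) (D ⊗ D) =
      (D ⊗ D) ◁ (β_ T T).hom ≫ (f ⊗ₘ 𝟙 (T ⊗ T)) ≫ pair2 T D := by
    intro f
    rw [tensorHom_id, whisker_exchange_assoc, pair2_eval]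
  have h2 : f ▷ (T ⊗ T) ≫ ε_ (T ⊗ T) (D ⊗ D) = g ▷ (T ⊗ T) ≫ ε_ (T ⊗ T) (D ⊗ D) := by
    rw [key, key, h]
  have h5 := (tensorRightHomEquiv (D ⊗ D) (T ⊗ T) (D ⊗ D) (𝟙_ C)).symm.injective
    (a₁ := f ≫ (λ_ _).inv) (a₂ := g ≫ (λ_ _).inv) (by
      simp only [tensorRightHomEquiv, Equiv.coe_fn_symm_mk]
      rw [comp_whiskerRight, comp_whiskerRight]
      have h6 : (λ_ (D ⊗ D)).inv ▷ (T ⊗ T) ≫ (α_ (𝟙_ C) (D ⊗ D) (T ⊗ T)).hom ≫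
        𝟙_ C ◁ ε_ (T ⊗ T) (D ⊗ D) ≫ (ρ_ (𝟙_ C)).hom = ε_ (T ⊗ T) (D ⊗ D) := by
        rw [← unitors_equal]; simp
      rw [Category.assoc, Category.assoc, h6, h2])
  rwa [cancel_mono] at h5

lemma mate_sum {S T : C} [HasRightDual S] [HasRightDual T] {ι : Type*} (s : Finset ι)
    (f : ι → (S ⟶ T)) : (∑ i ∈ s, f i)ᘁ = ∑ i ∈ s, (f i)ᘁ := by
  simp only [rightAdjointMate, sum_whiskerRight, whiskerLeft_sum, Preadditive.comp_sum,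
    Preadditive.sum_comp]

lemma IsLineSum.dual {T : C} [HasRightDual T] (hT : IsLineSum T) : IsLineSum (Tᘁ : C) := by
  obtain ⟨ι, κ, _, _, a, b, a', b', h1, h2⟩ := hT
  refine ⟨ι, κ, inferInstance, inferInstance, fun i => (b i)ᘁ, fun i => (a i)ᘁ,
    fun k => (a' k)ᘁ, fun k => (b' k)ᘁ, ?_, ?_⟩
  · have h3 : ∀ i, (b i)ᘁ ≫ (a i)ᘁ = (a i ≫ b i)ᘁ := fun i =>
      (comp_rightAdjointMate).symm
    simp only [h3]
    rw [← mate_sum, h1, rightAdjointMate_id]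
  · have hP : ∀ {μ : Type} [Fintype μ] (c d : μ → (T ⟶ T)),
        (𝟙 (Tᘁ ⊗ Tᘁ) ⊗ₘ ∑ i, (c i ⊗ₘ d i)) ≫ pair2 T Tᘁ =
        ((∑ i, ((c i)ᘁ ⊗ₘ (d i)ᘁ)) ⊗ₘ 𝟙 (T ⊗ T)) ≫ pair2 T Tᘁ := by
      intro μ _ c d
      rw [tensor_sum, sum_tensor, Preadditive.sum_comp, Preadditive.sum_comp]
      exact Finset.sum_congr rfl fun i _ => pair2_nat T (c i) (d i)
    have hβ : ((β_ (Tᘁ : C) Tᘁ).hom ⊗ₘ 𝟙 (T ⊗ T)) ≫ pair2 T Tᘁ =
        (𝟙 (Tᘁ ⊗ Tᘁ) ⊗ₘ (β_ T T).hom) ≫ pair2 T Tᘁ := by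
      conv_rhs => rw [← pair2_swap, ← Category.assoc, tensorHom_comp_tensorHom]
      simp
    have h3 : (β_ (Tᘁ : C) Tᘁ).hom ≫ ∑ i, ((b i)ᘁ ⊗ₘ (a i)ᘁ) =
        (∑ i, ((a i)ᘁ ⊗ₘ (b i)ᘁ)) ≫ (β_ (Tᘁ : C) Tᘁ).hom := by
      rw [Preadditive.comp_sum, Preadditive.sum_comp]
      exact Finset.sum_congr rfl fun i _ => (braiding_naturality _ _).symm
    rw [h3]
    apply pair2_inj T Tᘁ
    rw [← hP, ← h2]
    have h4 : (((∑ i, ((a i)ᘁ ⊗ₘ (b i)ᘁ)) ≫ (β_ (Tᘁ : C) Tᘁ).hom) ⊗ₘ 𝟙 (T ⊗ T)) =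
        ((∑ i, ((a i)ᘁ ⊗ₘ (b i)ᘁ)) ⊗ₘ 𝟙 (T ⊗ T)) ≫ ((β_ (Tᘁ : C) Tᘁ).hom ⊗ₘ 𝟙 (T ⊗ T)) := by
      rw [tensorHom_comp_tensorHom, Category.comp_id]
    have h5 : (𝟙 (Tᘁ ⊗ Tᘁ) ⊗ₘ ((β_ T T).hom ≫ ∑ i, (a i ⊗ₘ b i))) =
        (𝟙 (Tᘁ ⊗ Tᘁ) ⊗ₘ (β_ T T).hom) ≫ (𝟙 (Tᘁ ⊗ Tᘁ) ⊗ₘ ∑ i, (a i ⊗ₘ b i)) := by
      rw [tensorHom_comp_tensorHom, Category.comp_id]
    rw [h4, h5, Category.assoc, Category.assoc, hβ, hP]
    rw [← Category.assoc, ← Category.assoc, tensorHom_comp_tensorHom, tensorHom_comp_tensorHom]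
    simp

lemma IsLineSum.lineType {T : C} (hT : IsLineSum T) : LineType T :=
  ⟨PUnit, inferInstance, fun _ => T, fun _ => 𝟙 T, fun _ => 𝟙 T, fun _ => hT, by simp⟩

lemma LineType.retract {M N : C} (hM : LineType M) (i : N ⟶ M) (p : M ⟶ N)
    (h : i ≫ p = 𝟙 N) : LineType N := by
  obtain ⟨ι, _, T, j, q, h1, h2⟩ := hM
  refine ⟨ι, inferInstance, T, fun k => i ≫ j k, fun k => q k ≫ p, h1, ?_⟩
  have : ∑ k, (i ≫ j k) ≫ q k ≫ p = i ≫ (∑ k, j k ≫ q k) ≫ p := by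
    simp only [Preadditive.comp_sum, Preadditive.sum_comp, Category.assoc]
  rw [this, h2]
  simpa using h

/-- An object whose identity is a sum of two morphisms through objects of line type. -/
lemma LineType.sum {M N P : C} (hM : LineType M) (hN : LineType N) (i : P ⟶ M) (p : M ⟶ P)
    (i' : P ⟶ N) (p' : N ⟶ P) (h : i ≫ p + i' ≫ p' = 𝟙 P) : LineType P := by
  obtain ⟨ι, _, T, j, q, h1, h2⟩ := hM
  obtain ⟨κ, _, T', j', q', h1', h2'⟩ := hN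
  refine ⟨ι ⊕ κ, inferInstance, Sum.elim T T',
    fun x => Sum.rec (fun k => i ≫ j k) (fun k => i' ≫ j' k) x,
    fun x => Sum.rec (fun k => q k ≫ p) (fun k => q' k ≫ p') x, ?_, ?_⟩
  · rintro (k | k)
    · exact h1 k
    · exact h1' k
  · have e1 : ∑ k, (i ≫ j k) ≫ q k ≫ p = i ≫ (∑ k, j k ≫ q k) ≫ p := by
      simp only [Preadditive.comp_sum, Preadditive.sum_comp, Category.assoc]
    have e2 : ∑ k, (i' ≫ j' k) ≫ q' k ≫ p' = i' ≫ (∑ k, j' k ≫ q' k) ≫ p' := by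
      simp only [Preadditive.comp_sum, Preadditive.sum_comp, Category.assoc]
    have e3 : ∑ k, (i ≫ j k) ≫ q k ≫ p + ∑ k, (i' ≫ j' k) ≫ q' k ≫ p' = 𝟙 P := by
      rw [e1, e2, h2, h2']
      simpa using h
    refine (Fintype.sum_sum_type _).trans ?_
    exact e3

lemma LineType.tensor {M N : C} (hM : LineType M) (hN : LineType N) : LineType (M ⊗ N) := by
  obtain ⟨ι, _, T, j, q, h1, h2⟩ := hM
  obtain ⟨κ, _, T', j', q', h1', h2'⟩ := hN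
  refine ⟨ι × κ, inferInstance, fun x => T x.1 ⊗ T' x.2, fun x => j x.1 ⊗ₘ j' x.2,
    fun x => q x.1 ⊗ₘ q' x.2, fun x => (h1 x.1).tensor (h1' x.2), ?_⟩
  simp only [tensorHom_comp_tensorHom]
  rw [Fintype.sum_prod_type]
  simp only [← tensor_sum, ← sum_tensor, h2, h2']
  simp

lemma LineType.dual [RightRigidCategory C] {M : C} (hM : LineType M) :
    LineType (Mᘁ : C) := by
  obtain ⟨ι, _, T, j, q, h1, h2⟩ := hM
  refine ⟨ι, inferInstance, fun x => (T x)ᘁ, fun x => (q x)ᘁ, fun x => (j x)ᘁ,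
    fun x => (h1 x).dual, ?_⟩
  have h3 : ∀ i, (q i)ᘁ ≫ (j i)ᘁ = (j i ≫ q i)ᘁ := fun i => (comp_rightAdjointMate).symm
  simp only [h3]
  rw [← mate_sum, h2, rightAdjointMate_id]

end

end Pool.Agent.V7H32.LN
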