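import Mathlib

/-!
# Definitions: rigid symmetric categories, smash nilpotence, traces, motives of line type

`C` is a preadditive symmetric monoidal category, for example the category of Chow motives over a
field with rational coefficients.
-/

set_option autoImplicit false

open CategoryTheory MonoidalCategory BraidedCategory Limits

namespace Pool.Agent.V7H32.LN

universe w v u

/-- The tensor powers of an object. -/
def tpow {C : Type u} [Category.{v} C] [MonoidalCategory C] (M : C) : ℕ → C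
  | 0 => 𝟙_ C
  | n + 1 => M ⊗ tpow M n

/-- The tensor powers of a morphism from the unit. -/
def zpow {C : Type u} [Category.{v} C] [MonoidalCategory C] {M : C} (z : 𝟙_ C ⟶ M) :
    ∀ n : ℕ, 𝟙_ C ⟶ tpow M n
  | 0 => 𝟙 _
  | n + 1 => (λ_ (𝟙_ C)).inv ≫ (z ⊗ₘ zpow z n)

/-- The endomorphisms of the unit are the scalars in `K`, and the unit is not zero. -/
def ScalarUnit (K : Type w) [Field K] (C : Type u) [Category.{v} C] [Preadditive C] [Linear K C]
    [MonoidalCategory C] : Prop :=
  𝟙 (𝟙_ C) ≠ 0 ∧ ∀ a : 𝟙_ C ⟶ 𝟙_ C, ∃ c : K, a = c • 𝟙 (𝟙_ C)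

/-- The trace of an endomorphism `f` of `M`: the endomorphism
`1 ⟶ M ⊗ Mᘁ ⟶ M ⊗ Mᘁ ⟶ Mᘁ ⊗ M ⟶ 1` of the unit. -/
def trace {C : Type u} [Category.{v} C] [MonoidalCategory C] [BraidedCategory C]
    [RightRigidCategory C] {M : C} (f : M ⟶ M) : 𝟙_ C ⟶ 𝟙_ C :=
  η_ M Mᘁ ≫ f ▷ Mᘁ ≫ (β_ M Mᘁ).hom ≫ ε_ M Mᘁ

/-- The preadditive category `C` is abelian: it has finite products, kernels and cokernels, every
monomorphism is a kernel and every epimorphism is a cokernel. -/
def IsAb (C : Type u) [Category.{v} C] [Preadditive C] : Prop :=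
  HasFiniteProducts C ∧ HasKernels C ∧ HasCokernels C ∧ IsNormalMonoCategory C ∧
    IsNormalEpiCategory C

/-- There is an element `e = ∑ a i ⊗ b i` of `End T ⊗ End T` with `∑ b i ∘ a i = 1`, such that the
composition of `e` with the symmetry of `T ⊗ T` is also in the image `∑ a' k ⊗ b' k` of
`End T ⊗ End T`.  (If `End T` is semisimple this means that `T` becomes a direct sum of invertible
objects after an extension of the coefficients.) -/
def IsLineSum {C : Type u} [Category.{v} C] [Preadditive C] [MonoidalCategory C]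
    [SymmetricCategory C] (T : C) : Prop :=
  ∃ (ι κ : Type) (_ : Fintype ι) (_ : Fintype κ) (a b : ι → (T ⟶ T)) (a' b' : κ → (T ⟶ T)),
    ∑ i, a i ≫ b i = 𝟙 T ∧ (β_ T T).hom ≫ ∑ i, (a i ⊗ₘ b i) = ∑ k, (a' k ⊗ₘ b' k)

/-- `M` is of line type: a retract of a finite direct sum of objects `T` with `IsLineSum T`. -/
def LineType {C : Type u} [Category.{v} C] [Preadditive C] [MonoidalCategory C]
    [SymmetricCategory C] (M : C) : Prop :=
  ∃ (ι : Type) (_ : Fintype ι) (T : ι → C) (i : ∀ j, M ⟶ T j) (p : ∀ j, T j ⟶ M),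
    (∀ j, IsLineSum (T j)) ∧ ∑ j, i j ≫ p j = 𝟙 M

end Pool.Agent.V7H32.LN
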