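import Pool.Agent.V7H32.LN.Defs

set_option autoImplicit false
set_option linter.unusedSectionVars false

open CategoryTheory MonoidalCategory BraidedCategory Limits

namespace Pool.Agent.V7H32.LN

universe v u

section Rigid

variable {C : Type u} [Category.{v} C] [MonoidalCategory C] [SymmetricCategory C]

/-- The categorical dimension of an object with a dual, an endomorphism of the unit. -/
def dimm (X Y : C) [ExactPairing X Y] : 𝟙_ C ⟶ 𝟙_ C := η_ X Y ≫ (β_ X Y).hom ≫ ε_ X Y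

lemma mono_swap {X : C} (i : X ⟶ 𝟙_ C) [Mono i] :
    i ▷ X ≫ (λ_ X).hom = X ◁ i ≫ (ρ_ X).hom := by
  rw [← cancel_mono i]
  simp only [Category.assoc]
  rw [← leftUnitor_naturality, ← rightUnitor_naturality, unitors_equal]
  rw [← whisker_exchange_assoc]

lemma comp_dim {X : C} (Y : C) [ExactPairing X Y] (i : X ⟶ 𝟙_ C) [Mono i] :
    i ≫ dimm X Y = i := by
  have h := mono_swap i
  have h1 : i ≫ dimm X Y = (λ_ X).inv ≫ (dimm X Y) ▷ X ≫ (λ_ X).hom ≫ i := by
    rw [← leftUnitor_naturality, ← whisker_exchange_assoc, ← leftUnitor_inv_naturality_assoc,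
      unitors_equal, rightUnitor_naturality, ← unitors_equal]
    simp
  rw [h1, dimm]
  simp only [comp_whiskerRight, Category.assoc]
  have h2 : ε_ X Y ▷ X ≫ (λ_ X).hom ≫ i =
      (α_ _ _ _).hom ≫ Y ◁ (i ▷ X ≫ (λ_ X).hom) ≫ ε_ X Y := by
    rw [h, ← leftUnitor_naturality, ← whisker_exchange_assoc, unitors_equal,
      rightUnitor_naturality]
    simp
  rw [h2]
  have h3 : (β_ X Y).hom ▷ X ≫ (α_ _ _ _).hom ≫ Y ◁ (i ▷ X ≫ (λ_ X).hom) =
      (i ▷ Y) ▷ X ≫ (λ_ Y).hom ▷ X := by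
    have : (β_ X Y).hom ≫ Y ◁ i ≫ (ρ_ Y).hom = i ▷ Y ≫ (λ_ Y).hom := by
      rw [← braiding_naturality_left_assoc, braiding_rightUnitor]
    rw [← comp_whiskerRight, ← this]
    simp
  slice_lhs 3 5 => rw [h3]
  simp only [Category.assoc]
  have h4 : (i ▷ Y) ▷ X ≫ (λ_ Y).hom ▷ X ≫ ε_ X Y =
      (α_ _ _ _).hom ≫ X ◁ ε_ X Y ≫ (ρ_ X).hom ≫ i := by
    rw [← rightUnitor_naturality, whisker_exchange_assoc, ← unitors_equal,
      leftUnitor_naturality]
    simp
  rw [h4]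
  have h5 := ExactPairing.evaluation_coevaluation X Y
  slice_lhs 2 4 => rw [h5]
  simp

/-- Whiskering with a dualisable object preserves monomorphisms. -/
lemma mono_whiskerLeft (M M' : C) [ExactPairing M M'] {X Y : C} (i : X ⟶ Y) [Mono i] :
    Mono (M ◁ i) := by
  have : (tensorLeft M).IsRightAdjoint := ⟨_, ⟨tensorLeftAdjunction M M'⟩⟩
  exact inferInstanceAs (Mono ((tensorLeft M).map i))

/-- If `f ▷ X = 0` for a morphism `f` from the unit, then the dimension of `X` kills `f`. -/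
lemma dim_comp_eq_zero [Preadditive C] [MonoidalPreadditive C] {X M : C} (Y : C)
    [ExactPairing X Y] (f : 𝟙_ C ⟶ M) (h : f ▷ X = 0) : dimm X Y ≫ f = 0 := by
  have h1 : dimm X Y ≫ f = η_ X Y ≫ (λ_ _).inv ≫ f ▷ (X ⊗ Y) ≫
      M ◁ ((β_ X Y).hom ≫ ε_ X Y) ≫ (ρ_ M).hom := by
    rw [← whisker_exchange_assoc, rightUnitor_naturality, ← unitors_equal]
    simp [dimm]
  rw [h1]
  have h2 : f ▷ (X ⊗ Y) = 0 := by
    rw [whiskerRight_tensor, h]
    simp
  rw [h2]
  simp

/-- A nonzero monomorphism `i` to the unit does not kill any nonzero morphism from the unit, if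
the nonzero endomorphisms of the unit are invertible. -/
lemma eq_zero_of_mono_comp [Preadditive C] [MonoidalPreadditive C] {X M : C} (Y M' : C)
    [ExactPairing X Y] [ExactPairing M M']
    (hinv : ∀ a : 𝟙_ C ⟶ 𝟙_ C, a ≠ 0 → IsIso a)
    (i : X ⟶ 𝟙_ C) [Mono i] (hi : i ≠ 0) (f : 𝟙_ C ⟶ M) (h : i ≫ f = 0) : f = 0 := by
  have hd := comp_dim Y i
  have h1 : dimm X Y - 𝟙 _ = 0 := by
    by_contra hne
    have := hinv _ hne
    apply hi
    have h2 : i ≫ (dimm X Y - 𝟙 _) = 0 := by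
      rw [Preadditive.comp_sub, hd]; simp
    rw [← cancel_mono (dimm X Y - 𝟙 _), h2, zero_comp]
  have h2 : f ▷ X = 0 := by
    have := mono_whiskerLeft M M' i
    rw [← cancel_mono (M ◁ i), zero_comp, ← whisker_exchange]
    have : 𝟙_ C ◁ i ≫ f ▷ 𝟙_ C = (λ_ X).hom ≫ (i ≫ f) ≫ (ρ_ M).inv := by
      rw [whiskerRight_id, ← unitors_equal]
      simp
    rw [this, h]
    simp
  have h3 := dim_comp_eq_zero Y f h2
  rw [sub_eq_zero.mp h1] at h3
  simpa using h3

/-- A nonzero morphism from the unit which has a kernel is a monomorphism. -/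
lemma mono_of_hasKernel [Preadditive C] [MonoidalPreadditive C] [RightRigidCategory C]
    (hinv : ∀ a : 𝟙_ C ⟶ 𝟙_ C, a ≠ 0 → IsIso a) {M : C} (f : 𝟙_ C ⟶ M) (hf : f ≠ 0)
    [HasKernel f] : Mono f := by
  have h0 : kernel.ι f = 0 := by
    by_contra hne
    exact hf (eq_zero_of_mono_comp (kernel f)ᘁ Mᘁ hinv (kernel.ι f) hne f (kernel.condition f))
  refine Preadditive.mono_of_cancel_zero f fun g hg => ?_
  rw [← kernel.lift_ι f g hg, h0, comp_zero]

end Rigid

end Pool.Agent.V7H32.LN
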