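import Pool.Agent.V7H32.LN.Main

set_option autoImplicit false
set_option linter.unusedSectionVars false

open CategoryTheory MonoidalCategory BraidedCategory Limits

namespace Pool.Agent.V7H32.LN

universe w v u

section

variable {K : Type w} [Field K] {C : Type u} [Category.{v} C] [Abelian C] [Linear K C]
  [MonoidalCategory C] [MonoidalPreadditive C] [MonoidalLinear K C] [SymmetricCategory C]
  [RigidCategory C]

attribute [local instance] Abelian.hasFiniteBiproducts

lemma mono_desc (h : ScalarUnit K C) {T : C} {r : ℕ} (v : Fin r → (𝟙_ C ⟶ T))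
    (hv : LinearIndependent K v) : Mono (biproduct.desc v) := by
  refine Preadditive.mono_of_cancel_zero _ fun {G} g hg => ?_
  have h1 : ∑ j, (g ≫ biproduct.π _ j) ≫ v j = 0 := by
    rw [← hg]
    rw [biproduct.desc_eq, Preadditive.comp_sum]
    simp
  have h2 := indep h v hv Finset.univ _ h1
  refine biproduct.hom_ext _ _ fun j => ?_
  rw [h2 j (Finset.mem_univ j), zero_comp]

theorem split_of_lineSum (h : ScalarUnit K C) {T : C} (hT : IsLineSum T) (z : 𝟙_ C ⟶ T)
    (hz : z ≠ 0) : ∃ g : T ⟶ 𝟙_ C, z ≫ g ≠ 0 := by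
  classical
  obtain ⟨ι, κ, _, _, a, b, a', b', h1, h2⟩ := hT
  let V : Submodule K (𝟙_ C ⟶ T) :=
    Submodule.span K (Set.range (fun i => z ≫ a i) ∪ Set.range (fun k => z ≫ b' k))
  have hVfin : Module.Finite K V := by
    apply Module.Finite.span_of_finite
    exact (Set.finite_range _).union (Set.finite_range _)
  have hVa : ∀ i, z ≫ a i ∈ V := fun i => Submodule.subset_span (Or.inl ⟨i, rfl⟩)
  have hVb : ∀ k, z ≫ b' k ∈ V := fun k => Submodule.subset_span (Or.inr ⟨k, rfl⟩)
  have hVc : ∀ x ∈ V, ∃ c : T ⟶ T, x = z ≫ c := by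
    intro x hx
    have hle : V ≤ LinearMap.range (Linear.leftComp K T z) := by
      apply Submodule.span_le.mpr
      rintro _ (⟨i, rfl⟩ | ⟨k, rfl⟩)
      · exact ⟨a i, rfl⟩
      · exact ⟨b' k, rfl⟩
    obtain ⟨c, hc⟩ := hle hx
    exact ⟨c, hc.symm⟩
  let B := Module.finBasis K V
  let r := Module.finrank K V
  let v : Fin r → (𝟙_ C ⟶ T) := fun j => (B j : 𝟙_ C ⟶ T)
  have hv : LinearIndependent K v := B.linearIndependent.map' V.subtype (Submodule.ker_subtype V)
  choose c hc using fun j => hVc (v j) (B j).2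
  let φ : ι → Fin r → K := fun i j => B.repr ⟨z ≫ a i, hVa i⟩ j
  have hφ : ∀ i, z ≫ a i = ∑ j, φ i j • v j := by
    intro i
    have := congrArg (fun x : V => (x : 𝟙_ C ⟶ T)) (B.sum_repr ⟨z ≫ a i, hVa i⟩)
    simp only [Submodule.coe_sum, Submodule.coe_smul] at this
    exact this.symm
  have hmono := mono_desc h v hv
  set Φ := biproduct.desc v with hΦ
  let q := cokernel.π Φ
  have hvq : ∀ j, v j ≫ q = 0 := by
    intro j
    have : v j = biproduct.ι _ j ≫ Φ := by rw [hΦ, biproduct.ι_desc]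
    rw [this, Category.assoc, cokernel.condition, comp_zero]
  have hVq : ∀ x ∈ V, x ≫ q = 0 := by
    intro x hx
    have := congrArg (fun x : V => (x : 𝟙_ C ⟶ T)) (B.sum_repr ⟨x, hx⟩)
    simp only [Submodule.coe_sum, Submodule.coe_smul] at this
    rw [← this, Preadditive.sum_comp]
    refine Finset.sum_eq_zero fun j _ => ?_
    rw [Linear.smul_comp]
    change _ • (v j ≫ q) = 0
    rw [hvq j, smul_zero]
  let t : Fin r → (T ⟶ T) := fun j => ∑ i, φ i j • b i
  have htq : ∀ j, t j ≫ q = 0 := by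
    apply indep_tensor h v hv (ᘁ(cokernel Φ) : C)
    have e1 : ∑ j, (λ_ T).inv ≫ (v j ⊗ₘ t j ≫ q) =
        (λ_ T).inv ≫ (z ⊗ₘ 𝟙 T) ≫ (∑ i, (a i ⊗ₘ b i)) ≫ (T ◁ q) := by
      have e2 : ∀ i, (z ⊗ₘ 𝟙 T) ≫ (a i ⊗ₘ b i) ≫ T ◁ q = ∑ j, φ i j • (v j ⊗ₘ b i ≫ q) := by
        intro i
        rw [← id_tensorHom, tensorHom_comp_tensorHom, tensorHom_comp_tensorHom]
        simp only [Category.comp_id, Category.id_comp]
        rw [hφ i]
        rw [sum_tensor]
        refine Finset.sum_congr rfl fun j _ => ?_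
        simp [MonoidalCategory.tensorHom_def]
      rw [Preadditive.sum_comp, Preadditive.comp_sum]
      simp only [e2]
      rw [Finset.sum_comm, Preadditive.comp_sum]
      refine Finset.sum_congr rfl fun j _ => ?_
      congr 1
      simp only [t]
      rw [Preadditive.sum_comp, tensor_sum]
      refine Finset.sum_congr rfl fun i _ => ?_
      simp [MonoidalCategory.tensorHom_def]
    rw [e1]
    have e3 : (λ_ T).inv ≫ (z ⊗ₘ 𝟙 T) = (ρ_ T).inv ≫ (𝟙 T ⊗ₘ z) ≫ (β_ T T).hom := by
      rw [braiding_naturality, braiding_tensorUnit_right]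
      simp
    rw [← Category.assoc, e3]
    simp only [Category.assoc]
    rw [← Category.assoc (β_ T T).hom, h2, Preadditive.sum_comp, Preadditive.comp_sum,
      Preadditive.comp_sum]
    refine Finset.sum_eq_zero fun k _ => ?_
    rw [← id_tensorHom, tensorHom_comp_tensorHom, tensorHom_comp_tensorHom]
    rw [← Category.assoc z, hVq _ (hVb k)]
    simp
  let S : T ⟶ T := ∑ j, c j ≫ t j
  have hSq : S ≫ q = 0 := by
    rw [Preadditive.sum_comp]
    refine Finset.sum_eq_zero fun j _ => ?_
    rw [Category.assoc, htq j, comp_zero]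
  have hzS : z ≫ S = z := by
    have e1 : z ≫ S = ∑ j, v j ≫ t j := by
      rw [Preadditive.comp_sum]
      refine Finset.sum_congr rfl fun j _ => ?_
      rw [← Category.assoc, ← hc j]
    have e2 : z = ∑ i, (z ≫ a i) ≫ b i := by
      have := congrArg (fun x => z ≫ x) h1
      simp only [Preadditive.comp_sum, Category.comp_id] at this
      simpa using this.symm
    rw [e1]
    conv_rhs => rw [e2]
    simp only [hφ, Preadditive.sum_comp, Linear.smul_comp, t, Preadditive.comp_sum,
      Linear.comp_smul]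
    rw [Finset.sum_comm]
  let ψ := Abelian.monoLift Φ S hSq
  have hψ : ψ ≫ Φ = S := Abelian.monoLift_comp Φ S hSq
  by_contra hcon
  push Not at hcon
  apply hz
  rw [← hzS, ← hψ, ← Category.assoc]
  have : z ≫ ψ = 0 := by
    refine biproduct.hom_ext _ _ fun j => ?_
    rw [zero_comp, Category.assoc]
    exact hcon _
  rw [this, zero_comp]

end

end Pool.Agent.V7H32.LN
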