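import Pool.Agent.V7H32.LN.Dim

set_option autoImplicit false
set_option linter.unusedSectionVars false

open CategoryTheory MonoidalCategory BraidedCategory Limits

namespace Pool.Agent.V7H32.LN

universe w v u

section

variable {K : Type w} [Field K] {C : Type u} [Category.{v} C] [Preadditive C] [Linear K C]
  [MonoidalCategory C] [MonoidalPreadditive C] [SymmetricCategory C]
  [RigidCategory C]

lemma ScalarUnit.isIso (h : ScalarUnit K C) (a : 𝟙_ C ⟶ 𝟙_ C) (ha : a ≠ 0) : IsIso a := by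
  obtain ⟨c, rfl⟩ := h.2 a
  have hc : c ≠ 0 := by
    rintro rfl
    exact ha (zero_smul _ _)
  refine ⟨c⁻¹ • 𝟙 _, ?_, ?_⟩ <;> simp [smul_smul, hc]

lemma zpow_mono {M : C} (z : 𝟙_ C ⟶ M) [Mono z] (n : ℕ) : Mono (zpow z n) := by
  induction n with
  | zero => exact inferInstanceAs (Mono (𝟙 (𝟙_ C)))
  | succ n ih =>
    have h2 : Mono (z ▷ 𝟙_ C) := by
      rw [whiskerRight_id]
      infer_instance
    have h3 := mono_whiskerLeft M Mᘁ (zpow z n)
    have h4 : Mono ((λ_ (𝟙_ C)).inv ≫ (z ⊗ₘ zpow z n)) := by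
      rw [MonoidalCategory.tensorHom_def]
      have h5 : Mono (z ▷ 𝟙_ C ≫ M ◁ zpow z n) := mono_comp _ _
      exact mono_comp _ _
    exact h4

lemma part_one (h : ScalarUnit K C) {M : C} (z : 𝟙_ C ⟶ M) (hz : z ≠ 0) (hk : HasKernel z) :
    Mono z ∧ ∀ n, zpow z n ≠ 0 := by
  have hm := mono_of_hasKernel h.isIso z hz
  refine ⟨hm, fun n hn => h.1 ?_⟩
  have := zpow_mono z n
  rw [← cancel_mono (zpow z n), hn, comp_zero, comp_zero]

end

section Ab

variable {K : Type w} [Field K] {C : Type u} [Category.{v} C] [Abelian C] [Linear K C]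
  [MonoidalCategory C] [MonoidalPreadditive C] [SymmetricCategory C]
  [RigidCategory C]

lemma mono_of_ne (h : ScalarUnit K C) {M : C} (z : 𝟙_ C ⟶ M) (hz : z ≠ 0) : Mono z :=
  (part_one h z hz inferInstance).1

lemma epi_of_ne (h : ScalarUnit K C) {M : C} (z : M ⟶ 𝟙_ C) (hz : z ≠ 0) : Epi z := by
  have h0 : cokernel.π z = 0 := by
    by_contra hne
    have := mono_of_ne h _ hne
    exact hz (by rw [← cancel_mono (cokernel.π z), cokernel.condition, zero_comp])
  refine Preadditive.epi_of_cancel_zero z fun g hg => ?_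
  rw [← cokernel.π_desc z g hg, h0, zero_comp]

lemma indep (h : ScalarUnit K C) {T : C} {ι : Type*} (f : ι → (𝟙_ C ⟶ T))
    (hf : LinearIndependent K f) (s : Finset ι) {X : C} (u : ι → (X ⟶ 𝟙_ C))
    (hs : ∑ i ∈ s, u i ≫ f i = 0) : ∀ i ∈ s, u i = 0 := by
  classical
  induction s using Finset.induction_on generalizing X with
  | empty => simp
  | insert a s ha ih =>
    rw [Finset.sum_insert ha] at hs
    by_cases hu : u a = 0
    · rw [hu, zero_comp, zero_add] at hs
      intro i hi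
      rcases Finset.mem_insert.mp hi with rfl | hi
      · exact hu
      · exact ih u hs i hi
    · exfalso
      have hepi := epi_of_ne h _ hu
      have h1 : ∑ i ∈ s, (kernel.ι (u a) ≫ u i) ≫ f i = 0 := by
        have h2 := congrArg (fun x => kernel.ι (u a) ≫ x) hs
        simp only [Preadditive.comp_add, comp_zero, kernel.condition_assoc, zero_comp,
          zero_add, Preadditive.comp_sum] at h2
        simpa using h2
      have h2 := ih _ h1
      choose! c hc using fun i (hi : i ∈ s) =>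
        h.2 (Abelian.epiDesc (u a) (u i) (h2 i hi))
      have h3 : ∀ i ∈ s, u i = c i • u a := by
        intro i hi
        have h4 := Abelian.comp_epiDesc (u a) (u i) (h2 i hi)
        rw [hc i hi] at h4
        rw [← h4]
        simp
      have h5 : u a ≫ (f a + ∑ i ∈ s, c i • f i) = 0 := by
        rw [Preadditive.comp_add, Preadditive.comp_sum, ← hs]
        congr 1
        refine Finset.sum_congr rfl fun i hi => ?_
        rw [h3 i hi]
        simp
      have h6 : f a + ∑ i ∈ s, c i • f i = 0 := by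
        rw [← cancel_epi (u a), h5, comp_zero]
      have h7 := linearIndependent_iff'.mp hf (insert a s)
        (fun i => if i = a then 1 else c i) (by
          rw [Finset.sum_insert ha, ← h6]
          simp only [if_true, one_smul]
          congr 1
          refine Finset.sum_congr rfl fun i hi => ?_
          rw [if_neg]
          rintro rfl
          exact ha hi) a (Finset.mem_insert_self a s)
      simp at h7

/-- Independence after tensoring. -/
lemma indep_tensor (h : ScalarUnit K C) {T : C} {ι : Type*} [Fintype ι] (f : ι → (𝟙_ C ⟶ T))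
    (hf : LinearIndependent K f) {X Z : C} (Y : C) [ExactPairing Y Z] (y : ι → (X ⟶ Z))
    (hs : ∑ i, (λ_ X).inv ≫ (f i ⊗ₘ y i) = 0) : ∀ i, y i = 0 := by
  have key : ∀ i, ((λ_ X).inv ≫ (f i ⊗ₘ y i)) ▷ Y ≫ (α_ _ _ _).hom ≫ T ◁ ε_ Y Z ≫
      (ρ_ T).hom = (y i ▷ Y ≫ ε_ Y Z) ≫ f i := by
    intro i
    have h1 : (y i ▷ Y ≫ ε_ Y Z) ≫ f i = (λ_ _).inv ≫ (𝟙_ C ◁ (y i ▷ Y ≫ ε_ Y Z) ≫
      f i ▷ 𝟙_ C) ≫ (ρ_ T).hom := by
      rw [Category.assoc (𝟙_ C ◁ _), rightUnitor_naturality, ← unitors_equal]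
      simp
    rw [h1, whisker_exchange, MonoidalCategory.tensorHom_def]
    simp
  have h2 : ∑ i, (y i ▷ Y ≫ ε_ Y Z) ≫ f i = 0 := by
    have h3 := congrArg (fun g => g ▷ Y ≫ (α_ _ _ _).hom ≫ T ◁ ε_ Y Z ≫ (ρ_ T).hom) hs
    simp only [sum_whiskerRight, Preadditive.sum_comp,
      MonoidalPreadditive.zero_whiskerRight, zero_comp] at h3
    rw [← h3]
    exact Finset.sum_congr rfl fun i _ => (key i).symm
  intro i
  have h4 := indep h f hf Finset.univ _ h2 i (Finset.mem_univ i)
  have h5 := (tensorRightHomEquiv X Y Z (𝟙_ C)).symm.injective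
    (a₁ := y i ≫ (λ_ Z).inv) (a₂ := 0) (by
      simp only [tensorRightHomEquiv, Equiv.coe_fn_symm_mk]
      rw [comp_whiskerRight, MonoidalPreadditive.zero_whiskerRight, zero_comp]
      have h6 : (λ_ Z).inv ▷ Y ≫ (α_ (𝟙_ C) Z Y).hom ≫ 𝟙_ C ◁ ε_ Y Z ≫
        (ρ_ (𝟙_ C)).hom = ε_ Y Z := by
        rw [← unitors_equal]; simp
      rw [Category.assoc, h6, h4])
  rw [← cancel_mono (λ_ Z).inv, h5, zero_comp]

end Ab

end Pool.Agent.V7H32.LN
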