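import Pool.Agent.V7H32.LN.Close

set_option autoImplicit false
set_option linter.unusedSectionVars false

open CategoryTheory MonoidalCategory BraidedCategory Limits

namespace Pool.Agent.V7H32.LN

universe w v u

section

variable {C : Type u} [Category.{v} C] [Preadditive C] [MonoidalCategory C]
  [MonoidalPreadditive C] [SymmetricCategory C] [RigidCategory C]

/-- A linear form on `N ⊗ Mᘁ` is given by a morphism `N ⟶ M` and the trace. -/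
lemma exists_trace {M N : C} (f : M ⟶ N) (g : (N ⊗ Mᘁ : C) ⟶ 𝟙_ C) :
    ∃ k : N ⟶ M, trace (f ≫ k) = (η_ M Mᘁ ≫ f ▷ Mᘁ) ≫ g := by
  let := exactPairing_swap M Mᘁ
  let k' := tensorRightHomEquiv N Mᘁ M (𝟙_ C) g
  have hk : k' ▷ Mᘁ ≫ (α_ _ _ _).hom ≫ 𝟙_ C ◁ ε_ Mᘁ M ≫ (ρ_ _).hom = g :=
    (tensorRightHomEquiv N Mᘁ M (𝟙_ C)).symm_apply_apply g
  refine ⟨k' ≫ (λ_ M).hom, ?_⟩
  have hε : ε_ Mᘁ M = (β_ M Mᘁ).hom ≫ ε_ M Mᘁ := rfl
  rw [← hk, hε, trace, ← unitors_equal]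
  simp

lemma mate_ne_zero {M N : C} (f : M ⟶ N) (hf : f ≠ 0) : η_ M Mᘁ ≫ f ▷ Mᘁ ≠ 0 := by
  intro h0
  apply hf
  have h1 := (tensorRightHomEquiv (𝟙_ C) M Mᘁ N).injective
    (a₁ := (λ_ M).hom ≫ f) (a₂ := 0) (by
      simp only [tensorRightHomEquiv, Equiv.coe_fn_mk]
      rw [comp_whiskerRight, MonoidalPreadditive.zero_whiskerRight]
      have h2 : (ρ_ (𝟙_ C)).inv ≫ 𝟙_ C ◁ η_ M Mᘁ ≫ (α_ (𝟙_ C) M Mᘁ).inv ≫
          (λ_ M).hom ▷ Mᘁ ≫ f ▷ Mᘁ = η_ M Mᘁ ≫ f ▷ Mᘁ := by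
        rw [← unitors_inv_equal]
        simp
      rw [h2, h0]
      simp)
  rw [← cancel_epi (λ_ M).hom, h1, comp_zero]

end

section

variable {K : Type w} [Field K] {C : Type u} [Category.{v} C] [Abelian C] [Linear K C]
  [MonoidalCategory C] [MonoidalPreadditive C] [MonoidalLinear K C] [SymmetricCategory C]
  [RigidCategory C]

theorem split_of_lineType (h : ScalarUnit K C) {M : C} (hM : LineType M) (z : 𝟙_ C ⟶ M)
    (hz : z ≠ 0) : ∃ g : M ⟶ 𝟙_ C, z ≫ g = 𝟙 _ := by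
  obtain ⟨ι, _, T, i, p, h1, h2⟩ := hM
  have h3 : ∃ j, z ≫ i j ≠ 0 := by
    by_contra hcon
    push Not at hcon
    apply hz
    have : z = ∑ j, (z ≫ i j) ≫ p j := by
      simp only [Category.assoc]
      rw [← Preadditive.comp_sum, h2, Category.comp_id]
    rw [this]
    exact Finset.sum_eq_zero fun j _ => by rw [hcon j, zero_comp]
  obtain ⟨j, hj⟩ := h3
  obtain ⟨g, hg⟩ := split_of_lineSum h (h1 j) _ hj
  have := h.isIso _ hg
  exact ⟨i j ≫ g ≫ inv ((z ≫ i j) ≫ g), by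
    rw [← Category.assoc, ← Category.assoc]; exact IsIso.hom_inv_id _⟩

theorem numerical (h : ScalarUnit K C) {M N : C} (hM : LineType M) (hN : LineType N)
    (f : M ⟶ N) (hf : f ≠ 0) : ∃ g : N ⟶ M, trace (f ≫ g) = 𝟙 _ := by
  obtain ⟨g, hg⟩ := split_of_lineType h (hN.tensor hM.dual) _ (mate_ne_zero f hf)
  obtain ⟨k, hk⟩ := exists_trace f g
  exact ⟨k, hk.trans hg⟩

/-- An epimorphism onto the unit splits, if every nonzero morphism from the unit splits. -/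
lemma unit_split
    (H : ∀ (M : C) (z : 𝟙_ C ⟶ M), z ≠ 0 → ∃ g : M ⟶ 𝟙_ C, z ≫ g = 𝟙 _)
    {M : C} (p : M ⟶ 𝟙_ C) (hp : p ≠ 0) : ∃ s : 𝟙_ C ⟶ M, s ≫ p = 𝟙 _ := by
  obtain ⟨g, hg⟩ := H _ _ (mate_ne_zero p hp)
  refine ⟨η_ M Mᘁ ≫ M ◁ ((λ_ Mᘁ).inv ≫ g) ≫ (ρ_ M).hom, ?_⟩
  rw [← hg]
  simp only [Category.assoc]
  rw [← rightUnitor_naturality, whisker_exchange_assoc, ← unitors_equal]
  simp

theorem semisimple (h : ScalarUnit K C)
    (H : ∀ (M : C) (z : 𝟙_ C ⟶ M), z ≠ 0 → ∃ g : M ⟶ 𝟙_ C, z ≫ g = 𝟙 _)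
    {M N : C} (p : M ⟶ N) [Epi p] : IsSplitEpi p := by
  have : (tensorRight Nᘁ).IsLeftAdjoint := by
    let := exactPairing_swap N Nᘁ
    exact ⟨_, ⟨tensorRightAdjunction Nᘁ N⟩⟩
  have hepi : Epi (p ▷ Nᘁ) := inferInstanceAs (Epi ((tensorRight Nᘁ).map p))
  have hepi2 : Epi (pullback.snd (p ▷ Nᘁ) (η_ N Nᘁ)) := inferInstance
  have hne : pullback.snd (p ▷ Nᘁ) (η_ N Nᘁ) ≠ 0 := by
    intro h0
    apply h.1
    rw [← cancel_epi (pullback.snd (p ▷ Nᘁ) (η_ N Nᘁ)), h0, comp_zero, zero_comp]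
  obtain ⟨s, hs⟩ := unit_split H _ hne
  let w' : 𝟙_ C ⟶ M ⊗ Nᘁ := s ≫ pullback.fst (p ▷ Nᘁ) (η_ N Nᘁ)
  have hw : w' ≫ p ▷ Nᘁ = η_ N Nᘁ := by
    rw [Category.assoc, pullback.condition, ← Category.assoc, hs, Category.id_comp]
  let t := (tensorRightHomEquiv (𝟙_ C) N Nᘁ M).symm w'
  have ht : t ≫ p = (λ_ N).hom := by
    apply (tensorRightHomEquiv (𝟙_ C) N Nᘁ N).injective
    rw [tensorRightHomEquiv_naturality, Equiv.apply_symm_apply, hw]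
    simp only [tensorRightHomEquiv, Equiv.coe_fn_mk]
    rw [← unitors_inv_equal]
    simp
  exact ⟨⟨(λ_ N).inv ≫ t, by rw [Category.assoc, ht]; simp⟩⟩

end

section

variable {K : Type w} [Field K] {C : Type u} [Category.{v} C] [Preadditive C] [Linear K C]
  [MonoidalCategory C] [MonoidalPreadditive C] [MonoidalLinear K C] [SymmetricCategory C]

/-- The endomorphisms of an invertible object are scalars. -/
lemma end_scalar (h : ScalarUnit K C) {X X' : C} (i : X ⊗ X' ≅ 𝟙_ C) (u : X ⟶ X) :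
    ∃ c : K, u = c • 𝟙 X := by
  obtain ⟨c, hc⟩ := h.2 (i.inv ≫ u ▷ X' ≫ i.hom)
  refine ⟨c, ?_⟩
  have h1 : (u - c • 𝟙 X) ▷ X' = 0 := by
    have : u ▷ X' = c • 𝟙 (X ⊗ X') := by
      rw [← cancel_epi i.inv, ← cancel_mono i.hom, Category.assoc, hc]
      simp
    have h5 : (u - c • 𝟙 X) ▷ X' = u ▷ X' - (c • 𝟙 X) ▷ X' :=
      (tensorRight X').map_sub
    rw [h5, this, MonoidalLinear.smul_whiskerRight, id_whiskerRight, sub_self]
  have h2 : (u - c • 𝟙 X) ▷ (X' ⊗ X) = 0 := by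
    rw [whiskerRight_tensor, h1]
    simp
  let k : X' ⊗ X ≅ 𝟙_ C := β_ X' X ≪≫ i
  have h3 : (u - c • 𝟙 X) ▷ (𝟙_ C) = 0 := by
    rw [← cancel_epi (X ◁ k.hom), whisker_exchange, h2]
    simp
  rw [whiskerRight_id] at h3
  have h4 : u - c • 𝟙 X = 0 := by
    rw [← cancel_epi (ρ_ X).hom, ← cancel_mono (ρ_ X).inv, Category.assoc, h3]
    simp
  exact sub_eq_zero.mp h4

lemma IsLineSum.of_invertible (h : ScalarUnit K C) {L L' : C} (i : L ⊗ L' ≅ 𝟙_ C) :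
    IsLineSum L := by
  have j : (L ⊗ L) ⊗ (L' ⊗ L') ≅ 𝟙_ C :=
    ⟨tensorμ L L L' L', tensorδ L L L' L', tensorμ_tensorδ _ _ _ _, tensorδ_tensorμ _ _ _ _⟩ ≪≫
      (i ⊗ᵢ i) ≪≫ λ_ (𝟙_ C)
  obtain ⟨c, hc⟩ := end_scalar h j (β_ L L).hom
  refine IsLineSum.of_scalar (c • 𝟙 L) ?_
  rw [hc]
  simp

/-- A commutative algebra `E` acts on `T` and the tensor product `T ⊗ T` over `E` is symmetric or
antisymmetric. -/
lemma IsLineSum.of_algebra {E : Type*} [CommRing E] [Algebra K E] {T : C}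
    (ρ : E →ₐ[K] End T) {ι : Type} [Fintype ι] (a b : ι → E) (hab : ∑ i, a i * b i = 1)
    (s : ℤ) (hs : (β_ T T).hom ≫ ∑ i, ((ρ (a i) : T ⟶ T) ⊗ₘ (ρ (b i) : T ⟶ T)) =
      s • ∑ i, ((ρ (a i) : T ⟶ T) ⊗ₘ (ρ (b i) : T ⟶ T))) : IsLineSum T := by
  refine ⟨ι, ι, inferInstance, inferInstance, fun i => ρ (a i), fun i => ρ (b i),
    fun i => s • ρ (a i), fun i => ρ (b i), ?_, ?_⟩
  · have h1 := congrArg ρ hab
    rw [map_sum, map_one] at h1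
    rw [← End.one_def, ← h1]
    refine Finset.sum_congr rfl fun i _ => ?_
    rw [mul_comm, map_mul, End.mul_def]
  · rw [hs, Finset.smul_sum]
    refine Finset.sum_congr rfl fun i _ => ?_
    rw [MonoidalCategory.tensorHom_def, MonoidalCategory.tensorHom_def]
    have h5 : (s • (ρ (a i) : T ⟶ T)) ▷ T = s • ((ρ (a i) : T ⟶ T) ▷ T) :=
      (tensorRight T).map_zsmul
    rw [h5, Preadditive.zsmul_comp]

end

end Pool.Agent.V7H32.LN
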